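import Pool.Agent.Run7.h852.NW.Stm
import Pool.Agent.Y421.NW.Acc

set_option autoImplicit false

/-! Project NB (MP_70f7a7_an): clusters of at most two bodies. -/

namespace Run7.h852.NW

open MeasureTheory Set Filter Topology
open Pool.Agent.Y516.NW (E3 Cfg Surf acc gr Mot NonW Free Z IsFl vel)
open Pool.Agent.Y421.NW (tr tr_self tr_le)
open scoped Classical

variable {N : ℕ}

theorem P_symm {σ : Fin N → Fin N} (hσ : ∀ i, σ (σ i) = i) {i j : Fin N} (h : P σ i j) :
    P σ j i :=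
  ⟨h.1.symm, fun e => h.2 (by rw [← e, hσ])⟩

theorem P_left {σ : Fin N → Fin N} (hσ : ∀ i, σ (σ i) = i) {i j : Fin N} (h : P σ i j) :
    P σ (σ i) j :=
  ⟨h.2, by rw [hσ]; exact h.1⟩

theorem cm_hasDerivAt (m : Fin N → ℝ) (σ : Fin N → Fin N) (u : ℝ → Cfg N) (u' : Cfg N) (t : ℝ)
    (h : ∀ i, HasDerivAt (fun s => u s i) (u' i) t) (i : Fin N) :
    HasDerivAt (fun s => cm m σ (u s) i) (cm m σ u' i) t := by
  unfold cm
  exact (((h i).const_smul (m i)).add ((h (σ i)).const_smul (m (σ i)))).const_smul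
    ((m i + m (σ i))⁻¹)

theorem cm_smul (m : Fin N → ℝ) (σ : Fin N → Fin N) (c : ℝ) (u : Cfg N) (i : Fin N) :
    cm m σ (fun k => c • u k) i = c • cm m σ u i := by
  unfold cm
  rw [smul_comm (m i) c, smul_comm (m (σ i)) c, ← smul_add, smul_comm]

theorem cm_inv (m : Fin N → ℝ) {σ : Fin N → Fin N} (hσ : ∀ i, σ (σ i) = i) (u : Cfg N)
    (i : Fin N) : cm m σ u (σ i) = cm m σ u i := by
  unfold cm
  rw [hσ i, add_comm (m (σ i)), add_comm (m (σ i) • u (σ i))]

theorem near (m : Fin N → ℝ) (hm : ∀ i, 0 < m i) (σ : Fin N → Fin N) (q : Cfg N) (i : Fin N) :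
    ‖q i - cm m σ q i‖ ≤ ‖q i - q (σ i)‖ := by
  unfold cm
  have hs : 0 < m i + m (σ i) := add_pos (hm i) (hm _)
  have : q i - (m i + m (σ i))⁻¹ • (m i • q i + m (σ i) • q (σ i))
      = ((m i + m (σ i))⁻¹ * m (σ i)) • (q i - q (σ i)) := by
    have h1 : q i = ((m i + m (σ i))⁻¹ * (m i + m (σ i))) • q i := by
      rw [inv_mul_cancel₀ hs.ne', one_smul]
    nth_rewrite 1 [h1]
    rw [mul_smul, add_smul, mul_smul, ← smul_sub]
    congr 1
    rw [smul_sub]; abel
  rw [this, norm_smul, Real.norm_of_nonneg (mul_nonneg (inv_nonneg.mpr hs.le) (hm _).le)]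
  refine mul_le_of_le_one_left (norm_nonneg _) ?_
  rw [inv_mul_le_iff₀ hs]; linarith [hm i]

/-- accelerations of the centres of the clusters -/
theorem accS (m : Fin N → ℝ) (hm : ∀ i, 0 < m i) (σ : Fin N → Fin N) (hσ : ∀ i, σ (σ i) = i)
    (q : Cfg N) (D : Fin N → Fin N → ℝ)
    (hD : ∀ i j, P σ i j → 0 < D i j ∧ D i j / 4 ≤ ‖q i - q j‖)
    (hDσ : ∀ i j, P σ i j → D (σ i) j = D i j) (k : Fin N) :
    ‖cm m σ (acc m q) k‖ ≤
      ∑ j ∈ Finset.univ.filter (fun j => P σ k j), 16 * m j / D k j ^ 2 := by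
  have hs : 0 < m k + m (σ k) := add_pos (hm k) (hm _)
  have e0 : ∀ i, acc m q i = ∑ j, tr m q i j := fun i => rfl
  have hsum : m k • acc m q k + m (σ k) • acc m q (σ k) =
      ∑ j ∈ Finset.univ.filter (fun j => P σ k j),
        (m k • tr m q k j + m (σ k) • tr m q (σ k) j) := by
    rw [e0, e0, Finset.smul_sum, Finset.smul_sum, ← Finset.sum_add_distrib,
      ← Finset.sum_filter_add_sum_filter_not Finset.univ (fun j => P σ k j)]
    have h0 : ∑ j ∈ Finset.univ.filter (fun j => ¬ P σ k j),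
        (m k • tr m q k j + m (σ k) • tr m q (σ k) j) = 0 := by
      by_cases hk : σ k = k
      · have e : Finset.univ.filter (fun j => ¬ P σ k j) = {k} := by
          ext j
          simp only [Finset.mem_filter, Finset.mem_univ, true_and, Finset.mem_singleton, P, hk]
          constructor
          · intro h
            by_contra hne
            exact h ⟨fun e => hne e.symm, fun e => hne e.symm⟩
          · rintro rfl h
            exact h.1 rfl
        rw [e, Finset.sum_singleton, hk, tr_self, smul_zero, add_zero]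
      · have e : Finset.univ.filter (fun j => ¬ P σ k j) = {k, σ k} := by
          ext j
          simp only [Finset.mem_filter, Finset.mem_univ, true_and, Finset.mem_insert,
            Finset.mem_singleton, P]
          constructor
          · intro h
            by_contra hne
            push Not at hne
            exact h ⟨fun e => hne.1 e.symm, fun e => hne.2 e.symm⟩
          · rintro (rfl | rfl) h
            · exact h.1 rfl
            · exact h.2 rfl
        rw [e, Finset.sum_pair (fun h => hk h.symm), tr_self, tr_self, smul_zero, smul_zero,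
          zero_add, add_zero]
        unfold tr
        have e1 : ‖q k - q (σ k)‖ = ‖q (σ k) - q k‖ := norm_sub_rev _ _
        rw [e1, smul_smul, smul_smul]
        have e2 : q (σ k) - q k = -(q k - q (σ k)) := by abel
        rw [e2, smul_neg, ← sub_eq_add_neg, ← sub_smul]
        have e3 : m (σ k) * (m k / ‖-(q k - q (σ k))‖ ^ 3) -
            m k * (m (σ k) / ‖-(q k - q (σ k))‖ ^ 3) = 0 := by ring
        rw [e3, zero_smul]
    rw [h0, add_zero]
  have hcm : cm m σ (acc m q) k =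
      (m k + m (σ k))⁻¹ • (m k • acc m q k + m (σ k) • acc m q (σ k)) := rfl
  rw [hcm, hsum, norm_smul, norm_inv, Real.norm_of_nonneg hs.le, inv_mul_le_iff₀ hs,
    Finset.mul_sum]
  refine (norm_sum_le _ _).trans (Finset.sum_le_sum fun j hj => ?_)
  have hP : P σ k j := (Finset.mem_filter.1 hj).2
  have ha := hD k j hP
  have hb := hD (σ k) j (P_left hσ hP)
  have ta := tr_le hm q ha.1 ha.2
  have tb := tr_le hm q hb.1 hb.2
  rw [hDσ k j hP] at tb
  calc ‖m k • tr m q k j + m (σ k) • tr m q (σ k) j‖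
      ≤ ‖m k • tr m q k j‖ + ‖m (σ k) • tr m q (σ k) j‖ := norm_add_le _ _
    _ = m k * ‖tr m q k j‖ + m (σ k) * ‖tr m q (σ k) j‖ := by
        rw [norm_smul, norm_smul, Real.norm_of_nonneg (hm k).le, Real.norm_of_nonneg (hm _).le]
    _ ≤ m k * (16 * m j / D k j ^ 2) + m (σ k) * (16 * m j / D k j ^ 2) :=
        add_le_add (mul_le_mul_of_nonneg_left ta (hm k).le)
          (mul_le_mul_of_nonneg_left tb (hm _).le)
    _ = _ := by ring

/-- a pair with energy at most `-κ / 2` is closer than `2 (m k + m (σ k)) / κ` -/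
theorem tight (m : Fin N → ℝ) (hm : ∀ i, 0 < m i) (σ : Fin N → Fin N) (q v : Cfg N) (k : Fin N)
    (hq : q k ≠ q (σ k)) (κ : ℝ) (hκ : 0 < κ) (h : pe m σ q v k ≤ -κ / 2) :
    ‖q k - q (σ k)‖ * κ ≤ 2 * (m k + m (σ k)) := by
  have hr : 0 < ‖q k - q (σ k)‖ := norm_pos_iff.2 (sub_ne_zero.2 hq)
  unfold pe at h
  have h1 : κ / 2 ≤ (m k + m (σ k)) / ‖q k - q (σ k)‖ := by
    have := sq_nonneg ‖v k - v (σ k)‖
    linarith
  rw [le_div_iff₀ hr] at h1
  linarith

theorem num (M κ w δ : ℝ) (hM : 0 < M) (hδ : 0 < δ) (hw : 0 < w) (hκ : 100 * M ≤ κ * δ)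
    (hC : 1000 * M ≤ w ^ 2 * δ) :
    2 * M / Real.sqrt κ * (256 * M * Real.pi / (w * δ ^ 2)) < κ / 2 := by
  have hκ0 : 0 < κ := by
    by_contra hcon
    push Not at hcon
    nlinarith
  obtain ⟨s, hs⟩ : ∃ s, s = Real.sqrt κ := ⟨_, rfl⟩
  have hs0 : 0 < s := by rw [hs]; exact Real.sqrt_pos.2 hκ0
  have hs2 : s ^ 2 = κ := by rw [hs]; exact Real.sq_sqrt hκ0.le
  rw [← hs]
  have hpi : Real.pi < 3.15 := Real.pi_lt_d2
  have hpi0 := Real.pi_pos
  have key : 1024 * Real.pi * M ^ 2 < s ^ 3 * w * δ ^ 2 := by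
    refine lt_of_pow_lt_pow_left₀ 2 (by positivity) ?_
    have e1 : (s ^ 3 * w * δ ^ 2) ^ 2 = (κ * δ) ^ 3 * (w ^ 2 * δ) := by rw [← hs2]; ring
    have e2 : (100 * M) ^ 3 * (1000 * M) ≤ (κ * δ) ^ 3 * (w ^ 2 * δ) := by
      have h1 : (100 * M) ^ 3 ≤ (κ * δ) ^ 3 := pow_le_pow_left₀ (by positivity) hκ 3
      exact mul_le_mul h1 hC (by positivity) (by positivity)
    rw [e1]
    refine lt_of_lt_of_le ?_ e2
    have e3 : (1024 * Real.pi * M ^ 2) ^ 2 = 1048576 * Real.pi ^ 2 * M ^ 4 := by ring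
    have e4 : (100 * M) ^ 3 * (1000 * M) = 1000000000 * M ^ 4 := by ring
    rw [e3, e4]
    have e5 : Real.pi ^ 2 < 10 := by nlinarith
    have e6 : 0 < M ^ 4 := by positivity
    nlinarith
  have e : 2 * M / s * (256 * M * Real.pi / (w * δ ^ 2)) =
      512 * Real.pi * M ^ 2 / (s * w * δ ^ 2) := by
    field_simp; ring
  rw [e, div_lt_iff₀ (by positivity)]
  have e7 : κ / 2 * (s * w * δ ^ 2) = s ^ 3 * w * δ ^ 2 / 2 := by rw [← hs2]; ring
  rw [e7]
  linarith

end Run7.h852.NW
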