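import Pool.Agent.Run7.h852.NW.Wand

set_option autoImplicit false

/-! Project NB (MP_70f7a7_an): hyperbolic-elliptic final motions with clusters of at most two bodies
are wandering. -/

namespace Run7.h852.NW

open MeasureTheory Set Filter Topology
open Pool.Agent.Y516.NW (E3 Cfg Surf acc gr Mot NonW Free Z IsFl vel free_open Z_cont surf_free
  mot_of_flow)
open Pool.Agent.N775.NW (locC mot_rev vel_cont)
open scoped Classical

variable {N : ℕ}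

/-- with at least three bodies there are at least two clusters -/
theorem exists_P (hN : 3 ≤ N) (σ : Fin N → Fin N) : ∃ i j, P σ i j := by
  obtain ⟨i, hi⟩ : ∃ i : Fin N, i = ⟨0, by omega⟩ := ⟨_, rfl⟩
  have hcard : ({i, σ i} : Finset (Fin N)).card < (Finset.univ : Finset (Fin N)).card := by
    rw [Finset.card_univ, Fintype.card_fin]
    exact lt_of_le_of_lt (Finset.card_le_two) (by omega)
  obtain ⟨j, -, hj⟩ := Finset.exists_mem_notMem_of_card_lt_card hcard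
  rw [Finset.mem_insert, Finset.mem_singleton, not_or] at hj
  exact ⟨i, j, fun h => hj.1 h.symm, fun h => hj.2 h.symm⟩

/-- The criterion at one time. -/
theorem criterion (hPair : PairStm) (hN : 3 ≤ N) (m : Fin N → ℝ) (hm : ∀ i, 0 < m i)
    (σ : Fin N → Fin N) (hσ : ∀ i, σ (σ i) = i)
    (E : ℝ) (ψ : Cfg N × Cfg N → ℝ)
    (φ : ℝ → Cfg N × Cfg N → Cfg N × Cfg N) (hφ : IsFl m E ψ φ) (x : Cfg N × Cfg N)
    (hx : x ∈ Surf m E) (w δ κ : ℝ) (hw : 0 < w) (hδ : 0 < δ) (hκ0 : 0 < κ)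
    (hC : 32000 * ∑ i, m i ≤ w ^ 2 * δ) (hκ : 400 * ∑ i, m i ≤ κ * δ)
    (hG : Rec m σ w δ κ x.1 (vel m x) ∨ Rec m σ w δ κ x.1 (fun k => -vel m x k)) :
    ¬ NonW (Surf m E) φ x := by
  obtain ⟨i₀, j₀, hP₀⟩ := exists_P hN σ
  have hM0 : 0 < ∑ i, m i := Finset.sum_pos (fun i _ => hm i) ⟨i₀, Finset.mem_univ _⟩
  exact wanderS hPair m _ hm le_rfl hM0 σ hσ E ψ φ hφ x hx i₀ j₀ hP₀ w δ κ hw hδ hκ0 hC hκ hG

/-- The future motion is hyperbolic-elliptic. -/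
theorem future (hPair : PairStm) (hInv : InvStm) (hVel : VelStm) (hEll : EllStm) (hFin : FinStm)
    (hN : 3 ≤ N) (m : Fin N → ℝ) (hm : ∀ i, 0 < m i)
    (σ : Fin N → Fin N) (hσ : ∀ i, σ (σ i) = i)
    (E : ℝ) (ψ : Cfg N × Cfg N → ℝ)
    (φ : ℝ → Cfg N × Cfg N → Cfg N × Cfg N) (hφ : IsFl m E ψ φ)
    (hψ : ContDiffOn ℝ 1 ψ (Free N)) (x : Cfg N × Cfg N)
    (hx : x ∈ Surf m E) (τ : ℝ → ℝ)
    (hmot : Mot m E (fun t => (φ t x).1) (fun t => vel m (φ t x)) (fun t => ψ (φ t x)) τ)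
    (hL : Lin σ (fun t => (φ t x).1) τ) :
    ¬ NonW (Surf m E) φ x := by
  intro hNW
  obtain ⟨V, hV1, hV2⟩ := hVel N m hm σ hσ _ _ _ τ E hmot hL
  have hE := hEll N m hm σ hσ _ _ _ τ E hmot hL
  obtain ⟨w, δ, κ, hw, hδ, hκ, h1, h2, t, _, hR⟩ := hFin N m hm σ hσ _ _ _ τ E hmot hL.time V hV1
    hV2 hE (32000 * ∑ i, m i)
  have hM0 : 0 ≤ ∑ i, m i := Finset.sum_nonneg fun i _ => (hm i).le
  exact criterion hPair hN m hm σ hσ E ψ φ hφ (φ t x) ((hφ.flow x hx).2 t).1 w δ κ hw hδ hκ h1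
    (by linarith) (Or.inl hR) (hInv N m hm E ψ φ hφ hψ x hx t hNW)

/-- The past motion is hyperbolic-elliptic. -/
theorem past (hPair : PairStm) (hInv : InvStm) (hVel : VelStm) (hEll : EllStm) (hFin : FinStm)
    (hN : 3 ≤ N) (m : Fin N → ℝ) (hm : ∀ i, 0 < m i)
    (σ : Fin N → Fin N) (hσ : ∀ i, σ (σ i) = i)
    (E : ℝ) (ψ : Cfg N × Cfg N → ℝ)
    (φ : ℝ → Cfg N × Cfg N → Cfg N × Cfg N) (hφ : IsFl m E ψ φ)
    (hψ : ContDiffOn ℝ 1 ψ (Free N)) (x : Cfg N × Cfg N)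
    (hx : x ∈ Surf m E) (τ : ℝ → ℝ)
    (hmot : Mot m E (fun t => (φ t x).1) (fun t => vel m (φ t x)) (fun t => ψ (φ t x)) τ)
    (hL : Lin σ (fun t => (φ (-t) x).1) (fun t => -τ (-t))) :
    ¬ NonW (Surf m E) φ x := by
  intro hNW
  have hrev := mot_rev hmot 0
  have hL' : Lin σ (fun t => (φ (0 - t) x).1) (fun t => τ 0 - τ (0 - t)) := by
    simpa only [zero_sub, hmot.τ0] using hL
  obtain ⟨V, hV1, hV2⟩ := hVel N m hm σ hσ _ _ _ _ E hrev hL'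
  have hE := hEll N m hm σ hσ _ _ _ _ E hrev hL'
  obtain ⟨w, δ, κ, hw, hδ, hκ, h1, h2, t, _, hR⟩ := hFin N m hm σ hσ _ _ _ _ E hrev hL'.time V
    hV1 hV2 hE (32000 * ∑ i, m i)
  have hM0 : 0 ≤ ∑ i, m i := Finset.sum_nonneg fun i _ => (hm i).le
  exact criterion hPair hN m hm σ hσ E ψ φ hφ (φ (0 - t) x) ((hφ.flow x hx).2 _).1 w δ κ hw hδ hκ
    h1 (by linarith) (Or.inr hR) (hInv N m hm E ψ φ hφ hψ x hx (0 - t) hNW)

/-- the Newtonian time along an orbit -/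
theorem time_eq (m : Fin N → ℝ) (hm : ∀ i, 0 < m i) (E : ℝ) (ψ : Cfg N × Cfg N → ℝ)
    (φ : ℝ → Cfg N × Cfg N → Cfg N × Cfg N) (hφ : IsFl m E ψ φ) (x : Cfg N × Cfg N)
    (hx : x ∈ Surf m E) :
    Mot m E (fun t => (φ t x).1) (fun t => vel m (φ t x)) (fun t => ψ (φ t x))
      (fun t => ∫ s in (0:ℝ)..t, ψ (φ s x)) := by
  obtain ⟨τ, hmot⟩ := mot_of_flow m hm E ψ φ hφ x hx
  have hfl := hφ.flow x hx
  have hcont : Continuous fun t => φ t x :=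
    continuous_iff_continuousAt.mpr fun t => (hfl.2 t).2.continuousAt
  have hc : Continuous fun t => ψ (φ t x) :=
    hφ.cont.comp_continuous hcont (fun t => surf_free m E (hfl.2 t).1)
  have e : (fun t => ∫ s in (0:ℝ)..t, ψ (φ s x)) = τ := by
    funext t
    rw [intervalIntegral.integral_eq_sub_of_hasDerivAt (fun s _ => hmot.τd s)
      (hc.intervalIntegrable _ _), hmot.τ0, sub_zero]
  rw [e]
  exact hmot

end Run7.h852.NW
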