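import Pool.Agent.Run7.h852.NW.Clus
import Pool.Agent.Y275.NW.Boot

set_option autoImplicit false

/-! Project NB (MP_70f7a7_an): the clusters move almost freely and the pairs stay bound (bootstrap
argument). Adapted from `Pool.Agent.N775.NW.step1`, `curve1` (one pair, kept together by the
conservation of the total energy); here several pairs, each kept together by its own energy. -/

namespace Run7.h852.NW

open MeasureTheory Set Filter Topology
open Pool.Agent.Y516.NW (E3 Cfg Surf acc gr Mot NonW Free Z IsFl vel)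
open Pool.Agent.N775.NW (Out line1)
open scoped Classical

variable {N : ℕ}

/-- a receding straight half line -/
theorem line0 (X V : E3) (h : -(‖X‖ * ‖V‖) ≤ 2 * inner ℝ X V) (s : ℝ) (hs : 0 ≤ s) :
    ‖X‖ / 2 ≤ ‖X + s • V‖ := by
  have key : (‖X‖ ^ 2 + (s * ‖V‖) ^ 2) / 2 ≤ ‖X + s • V‖ ^ 2 := by
    rw [Pool.Agent.Y421.NW.expand]
    have e1 := mul_le_mul_of_nonneg_left h hs
    nlinarith [sq_nonneg (‖X‖ - s * ‖V‖)]
  refine (pow_le_pow_iff_left₀ (by positivity) (by positivity) two_ne_zero).1 ?_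
  nlinarith [sq_nonneg (s * ‖V‖), sq_nonneg ‖X‖]

/-- one step of the bootstrap -/
theorem stepS (hPair : PairStm)
    (m : Fin N → ℝ) (M : ℝ) (hm : ∀ i, 0 < m i) (hM : ∑ i, m i ≤ M) (hM0 : 0 < M)
    (σ : Fin N → Fin N) (hσ : ∀ i, σ (σ i) = i)
    (q v : ℝ → Cfg N) (c τ : ℝ → ℝ) (E : ℝ) (hmot : Mot m E q v c τ)
    (w δ : ℝ) (hw : 0 < w) (hδ : 0 < δ) (hC : 1000 * M ≤ w ^ 2 * δ)
    (X V : Fin N → Fin N → E3)
    (hXdef : ∀ i j, X i j = cm m σ (q 0) i - cm m σ (q 0) j)
    (hVdef : ∀ i j, V i j = cm m σ (v 0) i - cm m σ (v 0) j)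
    (hX : ∀ i j, P σ i j → δ ≤ ‖X i j‖)
    (hL0 : ∀ i j, P σ i j → ∀ s : ℝ, 0 ≤ s → δ / 2 ≤ ‖X i j + s • V i j‖)
    (hL2 : ∀ i j, P σ i j → ∀ s : ℝ, 0 ≤ s → s * w ≤ ‖X i j + s • V i j‖)
    (Θ θ : Fin N → Fin N → ℝ → ℝ)
    (hΘ : ∀ i j, P σ i j → ∀ s, HasDerivAt (Θ i j) (θ i j s) s)
    (hθ : ∀ i j, P σ i j → ∀ s, 0 ≤ s → 1 / ‖X i j + s • V i j‖ ^ 2 ≤ θ i j s)
    (hΘ' : ∀ i j, P σ i j → ∀ s, Θ i j s - Θ i j 0 ≤ Real.pi / (w * ‖X i j‖))
    (κ : Fin N → ℝ) (hκ : ∀ k, σ k ≠ k → 100 * M ≤ κ k * δ)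
    (hκdef : ∀ k, κ k = -pe m σ (q 0) (v 0) k)
    (T : ℝ) (hT : 0 ≤ T)
    (hB1 : ∀ t, 0 ≤ t → t ≤ T → ∀ i j, P σ i j →
      ‖(cm m σ (q t) i - cm m σ (q t) j) - X i j - τ t • V i j‖
        ≤ ‖X i j + τ t • V i j‖ / 2)
    (hB2 : ∀ t, 0 ≤ t → t ≤ T → ∀ k, σ k ≠ k → pe m σ (q t) (v t) k ≤ -κ k / 2) :
    (∀ t, 0 ≤ t → t ≤ T → ∀ i j, P σ i j →
      ‖(cm m σ (v t) i - cm m σ (v t) j) - V i j‖ ≤ w / 8) ∧
    (∀ i j, P σ i j →
      ‖(cm m σ (q T) i - cm m σ (q T) j) - X i j - τ T • V i j‖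
        < ‖X i j + τ T • V i j‖ / 2) ∧
    (∀ k, σ k ≠ k → pe m σ (q T) (v T) k < -κ k / 2) := by
  have hκ0 : ∀ k, σ k ≠ k → 0 < κ k := by
    intro k hk
    have := hκ k hk
    by_contra hcon
    push Not at hcon
    nlinarith
  -- masses of pairs
  have hMp : ∀ k, σ k ≠ k → m k + m (σ k) ≤ M := by
    intro k hk
    refine le_trans ?_ hM
    have h1 : ∑ i ∈ {k, σ k}, m i ≤ ∑ i, m i :=
      Finset.sum_le_sum_of_subset_of_nonneg (Finset.subset_univ _) fun i _ _ => (hm i).le
    rwa [Finset.sum_pair (fun h => hk h.symm)] at h1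
  have hDpos : ∀ i j, P σ i j → ∀ s : ℝ, 0 ≤ s → 0 < ‖X i j + s • V i j‖ := by
    intro i j h s hs
    have := hL0 i j h s hs
    linarith
  -- the pairs are tight
  have hr : ∀ t, 0 ≤ t → t ≤ T → ∀ k, ‖q t k - q t (σ k)‖ ≤ δ / 50 := by
    intro t h0 h1 k
    by_cases hk : σ k = k
    · rw [hk, sub_self, norm_zero]; positivity
    · have e1 := tight m hm σ (q t) (v t) k (hmot.ne t _ _ (fun h => hk h.symm)) (κ k) (hκ0 k hk)
        (hB2 t h0 h1 k hk)
      have e2 := hMp k hk
      have e3 := hκ k hk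
      have e4 : ‖q t k - q t (σ k)‖ * (κ k * δ) ≤ 2 * M * δ := by nlinarith
      have e5 : ‖q t k - q t (σ k)‖ * (100 * M) ≤ 2 * M * δ :=
        (mul_le_mul_of_nonneg_left e3 (norm_nonneg _)).trans e4
      by_contra hcon
      push Not at hcon
      nlinarith
  -- (A) distances
  have hA : ∀ t, 0 ≤ t → t ≤ T → ∀ i j, P σ i j →
      ‖X i j + τ t • V i j‖ / 4 ≤ ‖q t i - q t j‖ := by
    intro t h0 h1 i j hP
    have e1 := hB1 t h0 h1 i j hP
    have e2 := hr t h0 h1 i
    have e2' := hr t h0 h1 j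
    have e3 := near m hm σ (q t) i
    have e4 := near m hm σ (q t) j
    have e0 := hL0 i j hP (τ t) (hmot.nonneg h0)
    set A := cm m σ (q t) i
    set B := cm m σ (q t) j
    have e5 : ‖X i j + τ t • V i j‖ ≤ ‖(A - B) - X i j - τ t • V i j‖ + ‖A - B‖ := by
      have : X i j + τ t • V i j = -((A - B) - X i j - τ t • V i j) + (A - B) := by abel
      calc ‖X i j + τ t • V i j‖ = ‖-((A - B) - X i j - τ t • V i j) + (A - B)‖ := by
            rw [← this]
        _ ≤ ‖-((A - B) - X i j - τ t • V i j)‖ + ‖A - B‖ := norm_add_le _ _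
        _ = _ := by rw [norm_neg]
    have e6 : ‖A - B‖ ≤ ‖q t i - A‖ + ‖q t i - q t j‖ + ‖q t j - B‖ := by
      have : A - B = -(q t i - A) + (q t i - q t j) + (q t j - B) := by abel
      calc ‖A - B‖ = ‖-(q t i - A) + (q t i - q t j) + (q t j - B)‖ := by rw [← this]
        _ ≤ ‖-(q t i - A) + (q t i - q t j)‖ + ‖q t j - B‖ := norm_add_le _ _
        _ ≤ ‖-(q t i - A)‖ + ‖q t i - q t j‖ + ‖q t j - B‖ := by
            gcongr; exact norm_add_le _ _
        _ = _ := by rw [norm_neg]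
    linarith
  have hXσ : ∀ i j, X (σ i) j = X i j := by
    intro i j
    rw [hXdef, hXdef, cm_inv m hσ]
  have hVσ : ∀ i j, V (σ i) j = V i j := by
    intro i j
    rw [hVdef, hVdef, cm_inv m hσ]
  -- (B) accelerations
  have hAc : ∀ t, 0 ≤ t → t ≤ T → ∀ k, ‖cm m σ (acc m (q t)) k‖ ≤
      ∑ j ∈ Finset.univ.filter (fun j => P σ k j), 16 * m j / ‖X k j + τ t • V k j‖ ^ 2 := by
    intro t h0 h1 k
    refine accS m hm σ hσ (q t) (fun i j => ‖X i j + τ t • V i j‖) ?_ ?_ k
    · intro i j hP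
      exact ⟨hDpos i j hP _ (hmot.nonneg h0), hA t h0 h1 i j hP⟩
    · intro i j _
      simp only [hXσ, hVσ]
  -- (C) velocities of the clusters
  set Bk : Fin N → ℝ → ℝ := fun k t =>
    ∑ j ∈ Finset.univ.filter (fun j => P σ k j), 16 * m j * (Θ k j (τ t) - Θ k j 0) with hBk
  have hBkd : ∀ k t, HasDerivAt (Bk k)
      (∑ j ∈ Finset.univ.filter (fun j => P σ k j),
        16 * m j * (θ k j (τ t) * c t)) t := by
    intro k t
    refine HasDerivAt.fun_sum fun j hj => ?_
    have hP : P σ k j := (Finset.mem_filter.mp hj).2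
    exact (((hΘ k j hP (τ t)).comp t (hmot.τd t)).sub_const _).const_mul _
  have hvel : ∀ k t, 0 ≤ t → t ≤ T → ‖cm m σ (v t) k - cm m σ (v 0) k‖ ≤ Bk k t := by
    intro k
    have hd : ∀ t, HasDerivAt (fun s => cm m σ (v s) k - cm m σ (v 0) k)
        (c t • cm m σ (acc m (q t)) k) t := by
      intro t
      have := cm_hasDerivAt m σ v (fun i => c t • acc m (q t) i) t (hmot.vd t) k
      rw [cm_smul] at this
      exact this.sub_const _
    have := image_norm_le_of_norm_deriv_right_le_deriv_boundary (a := 0) (b := T)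
      (f := fun s => cm m σ (v s) k - cm m σ (v 0) k)
      (f' := fun t => c t • cm m σ (acc m (q t)) k)
      (fun t _ => (hd t).continuousAt.continuousWithinAt)
      (fun t _ => (hd t).hasDerivWithinAt)
      (B := Bk k)
      (B' := fun t => ∑ j ∈ Finset.univ.filter (fun j => P σ k j),
        16 * m j * (θ k j (τ t) * c t))
      (by simp [hBk, hmot.τ0]) (fun t => hBkd k t)
      (by
        intro t ht
        rw [norm_smul, Real.norm_of_nonneg (hmot.cpos t).le]
        refine (mul_le_mul_of_nonneg_left (hAc t ht.1 ht.2.le k) (hmot.cpos t).le).trans ?_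
        rw [Finset.mul_sum]
        refine Finset.sum_le_sum fun j hj => ?_
        have hP : P σ k j := (Finset.mem_filter.mp hj).2
        have e1 := hθ k j hP (τ t) (hmot.nonneg ht.1)
        have e2 : 0 ≤ 16 * m j * c t :=
          mul_nonneg (mul_nonneg (by norm_num) (hm j).le) (hmot.cpos t).le
        calc c t * (16 * m j / ‖X k j + τ t • V k j‖ ^ 2)
            = (16 * m j * c t) * (1 / ‖X k j + τ t • V k j‖ ^ 2) := by ring
          _ ≤ (16 * m j * c t) * θ k j (τ t) := mul_le_mul_of_nonneg_left e1 e2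
          _ = 16 * m j * (θ k j (τ t) * c t) := by ring)
    intro t h0 h1
    exact this ⟨h0, h1⟩
  have hmS : ∀ k, ∑ j ∈ Finset.univ.filter (fun j => P σ k j), m j ≤ M := fun k =>
    (Finset.sum_le_sum_of_subset_of_nonneg (Finset.filter_subset _ _)
      (fun j _ _ => (hm j).le)).trans hM
  -- (D) bound of Bk
  have hBkle : ∀ k t, Bk k t ≤ w / 16 := by
    intro k t
    have h1 : Bk k t ≤ ∑ j ∈ Finset.univ.filter (fun j => P σ k j),
        16 * m j * (Real.pi / (w * δ)) := by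
      refine Finset.sum_le_sum fun j hj => ?_
      have hP : P σ k j := (Finset.mem_filter.mp hj).2
      refine mul_le_mul_of_nonneg_left ((hΘ' k j hP (τ t)).trans ?_)
        (by have := hm j; positivity)
      gcongr
      exact hX k j hP
    have h2 : ∑ j ∈ Finset.univ.filter (fun j => P σ k j),
        16 * m j * (Real.pi / (w * δ)) ≤ 16 * M * (Real.pi / (w * δ)) := by
      rw [← Finset.sum_mul, ← Finset.mul_sum]
      gcongr
      exact hmS k
    have h3 : 16 * M * (Real.pi / (w * δ)) ≤ w / 16 := by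
      have hpi : Real.pi < 3.15 := Real.pi_lt_d2
      rw [mul_div_assoc', div_le_div_iff₀ (by positivity) (by norm_num)]
      have : 16 * M * Real.pi * 16 ≤ 1000 * M := by nlinarith
      nlinarith
    linarith
  have hrel : ∀ t, 0 ≤ t → t ≤ T → ∀ i j, P σ i j →
      ‖(cm m σ (v t) i - cm m σ (v t) j) - V i j‖ ≤ w / 8 := by
    intro t h0 h1 i j _
    have e1 := (hvel i t h0 h1).trans (hBkle i t)
    have e2 := (hvel j t h0 h1).trans (hBkle j t)
    have : (cm m σ (v t) i - cm m σ (v t) j) - V i j =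
        (cm m σ (v t) i - cm m σ (v 0) i) - (cm m σ (v t) j - cm m σ (v 0) j) := by
      rw [hVdef]; abel
    rw [this]
    refine (norm_sub_le _ _).trans ?_
    linarith
  refine ⟨hrel, ?_, ?_⟩
  · -- positions
    intro i j hP
    have hd : ∀ t, HasDerivAt
        (fun s => (cm m σ (q s) i - cm m σ (q s) j) - X i j - τ s • V i j)
        (c t • ((cm m σ (v t) i - cm m σ (v t) j) - V i j)) t := by
      intro t
      have e1 := cm_hasDerivAt m σ q (fun i => c t • v t i) t (hmot.qd t) i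
      have e2 := cm_hasDerivAt m σ q (fun i => c t • v t i) t (hmot.qd t) j
      rw [cm_smul] at e1 e2
      have e3 := ((e1.sub e2).sub_const (X i j)).sub ((hmot.τd t).smul_const (V i j))
      refine e3.congr_deriv ?_
      rw [smul_sub, smul_sub]
    have := image_norm_le_of_norm_deriv_right_le_deriv_boundary (a := 0) (b := T)
      (f := fun s => (cm m σ (q s) i - cm m σ (q s) j) - X i j - τ s • V i j)
      (f' := fun t => c t • ((cm m σ (v t) i - cm m σ (v t) j) - V i j))
      (fun t _ => (hd t).continuousAt.continuousWithinAt)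
      (fun t _ => (hd t).hasDerivWithinAt)
      (B := fun t => w / 8 * τ t) (B' := fun t => w / 8 * c t)
      (by simp [hmot.τ0, hXdef]) (fun t => (hmot.τd t).const_mul _)
      (by
        intro t ht
        rw [norm_smul, Real.norm_of_nonneg (hmot.cpos t).le, mul_comm]
        exact mul_le_mul_of_nonneg_right (hrel t ht.1 ht.2.le i j hP) (hmot.cpos t).le)
    have h1 := this (right_mem_Icc.mpr hT)
    have h2 := hL2 i j hP (τ T) (hmot.nonneg hT)
    have h3 := hDpos i j hP (τ T) (hmot.nonneg hT)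
    have h1' : ‖cm m σ (q T) i - cm m σ (q T) j - X i j - τ T • V i j‖ ≤ w / 8 * τ T := h1
    nlinarith
  · -- energies of the pairs
    intro k hk
    have hp := hPair N m hm σ hσ q v c τ E hmot k hk (fun j t => ‖X k j + τ t • V k j‖) T hT
      (by
        intro t h0 h1 j hP
        refine ⟨hDpos k j hP _ (hmot.nonneg h0), hA t h0 h1 k j hP, ?_⟩
        have := hA t h0 h1 (σ k) j (P_left hσ hP)
        rwa [hXσ, hVσ] at this)
      (κ k) (hκ0 k hk) (fun t h0 h1 => hB2 t h0 h1 k hk)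
      (fun t => ∑ j ∈ Finset.univ.filter (fun j => P σ k j),
        256 * m j / δ * (Θ k j (τ t) - Θ k j 0))
      (fun t => ∑ j ∈ Finset.univ.filter (fun j => P σ k j),
        256 * m j / δ * (θ k j (τ t) * c t))
      (by
        intro t
        refine HasDerivAt.fun_sum fun j hj => ?_
        have hP : P σ k j := (Finset.mem_filter.mp hj).2
        exact (((hΘ k j hP (τ t)).comp t (hmot.τd t)).sub_const _).const_mul _)
      (by simp [hmot.τ0])
      (by
        intro t h0 h1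
        rw [Finset.mul_sum]
        refine Finset.sum_le_sum fun j hj => ?_
        have hP : P σ k j := (Finset.mem_filter.mp hj).2
        have e1 := hθ k j hP (τ t) (hmot.nonneg h0)
        have e2 := hL0 k j hP (τ t) (hmot.nonneg h0)
        have e3 := hDpos k j hP (τ t) (hmot.nonneg h0)
        have e4 : 0 ≤ 128 * m j * c t :=
          mul_nonneg (mul_nonneg (by norm_num) (hm j).le) (hmot.cpos t).le
        set D := ‖X k j + τ t • V k j‖
        have e5 : 1 / D ≤ 2 / δ := by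
          rw [div_le_div_iff₀ e3 hδ]; linarith
        have e6 : 0 ≤ θ k j (τ t) := le_trans (by positivity) e1
        have e7 : 1 / D ^ 3 ≤ 2 / δ * θ k j (τ t) := by
          have : 1 / D ^ 3 = 1 / D * (1 / D ^ 2) := by field_simp
          rw [this]
          exact mul_le_mul e5 e1 (by positivity) (by positivity)
        calc c t * (128 * m j / D ^ 3) = (128 * m j * c t) * (1 / D ^ 3) := by ring
          _ ≤ (128 * m j * c t) * (2 / δ * θ k j (τ t)) := mul_le_mul_of_nonneg_left e7 e4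
          _ = 256 * m j / δ * (θ k j (τ t) * c t) := by ring)
    have hB : ∑ j ∈ Finset.univ.filter (fun j => P σ k j),
        256 * m j / δ * (Θ k j (τ T) - Θ k j 0) ≤ 256 * M * Real.pi / (w * δ ^ 2) := by
      have h1 : ∑ j ∈ Finset.univ.filter (fun j => P σ k j),
          256 * m j / δ * (Θ k j (τ T) - Θ k j 0) ≤
          ∑ j ∈ Finset.univ.filter (fun j => P σ k j), 256 * m j / δ * (Real.pi / (w * δ)) := by
        refine Finset.sum_le_sum fun j hj => ?_
        have hP : P σ k j := (Finset.mem_filter.mp hj).2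
        refine mul_le_mul_of_nonneg_left ((hΘ' k j hP (τ T)).trans ?_)
          (by have := hm j; positivity)
        gcongr
        exact hX k j hP
      refine h1.trans ?_
      have h2 : ∑ j ∈ Finset.univ.filter (fun j => P σ k j), 256 * m j / δ * (Real.pi / (w * δ))
          = (∑ j ∈ Finset.univ.filter (fun j => P σ k j), m j) *
            (256 / δ * (Real.pi / (w * δ))) := by
        rw [Finset.sum_mul]
        refine Finset.sum_congr rfl fun j _ => ?_
        ring
      rw [h2]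
      calc (∑ j ∈ Finset.univ.filter (fun j => P σ k j), m j) *
            (256 / δ * (Real.pi / (w * δ))) ≤ M * (256 / δ * (Real.pi / (w * δ))) := by
            gcongr
            exact hmS k
        _ = 256 * M * Real.pi / (w * δ ^ 2) := by field_simp
    have hn := num M (κ k) w δ hM0 hδ hw (hκ k hk) hC
    have hs : 0 < Real.sqrt (κ k) := Real.sqrt_pos.2 (hκ0 k hk)
    have h3 : 2 * (m k + m (σ k)) / Real.sqrt (κ k) *
        ∑ j ∈ Finset.univ.filter (fun j => P σ k j), 256 * m j / δ * (Θ k j (τ T) - Θ k j 0) ≤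
        2 * M / Real.sqrt (κ k) * (256 * M * Real.pi / (w * δ ^ 2)) := by
      have hmk := hm k
      have hmk' := hm (σ k)
      calc _ ≤ 2 * (m k + m (σ k)) / Real.sqrt (κ k) * (256 * M * Real.pi / (w * δ ^ 2)) :=
            mul_le_mul_of_nonneg_left hB (by positivity)
        _ ≤ _ := by
            refine mul_le_mul_of_nonneg_right ?_ (by positivity)
            refine div_le_div_of_nonneg_right ?_ hs.le
            have := hMp k hk
            linarith
    have h4 := (abs_le.1 (hp.trans h3)).2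
    have h5 := hκdef k
    linarith

/-- the clusters move almost freely in the future -/
theorem curveS (hPair : PairStm)
    (m : Fin N → ℝ) (M : ℝ) (hm : ∀ i, 0 < m i) (hM : ∑ i, m i ≤ M) (hM0 : 0 < M)
    (σ : Fin N → Fin N) (hσ : ∀ i, σ (σ i) = i)
    (q v : ℝ → Cfg N) (c τ : ℝ → ℝ) (E : ℝ) (hmot : Mot m E q v c τ)
    (w δ : ℝ) (hw : 0 < w) (hδ : 0 < δ) (hC : 1000 * M ≤ w ^ 2 * δ)
    (hX : ∀ i j, P σ i j → δ ≤ ‖cm m σ (q 0) i - cm m σ (q 0) j‖)
    (hG : ∀ i j, P σ i j → 2 * w ≤ ‖cm m σ (v 0) i - cm m σ (v 0) j‖ ∧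
      -(‖cm m σ (q 0) i - cm m σ (q 0) j‖ * ‖cm m σ (v 0) i - cm m σ (v 0) j‖) ≤
        2 * inner ℝ (cm m σ (q 0) i - cm m σ (q 0) j) (cm m σ (v 0) i - cm m σ (v 0) j))
    (hκ : ∀ k, σ k ≠ k → 100 * M ≤ -pe m σ (q 0) (v 0) k * δ) :
    ∀ t, 0 ≤ t → ∀ i j, P σ i j →
      ‖(cm m σ (v t) i - cm m σ (v t) j) - (cm m σ (v 0) i - cm m σ (v 0) j)‖
        ≤ w / 8 := by
  set X : Fin N → Fin N → E3 := fun i j => cm m σ (q 0) i - cm m σ (q 0) j with hXdef
  set V : Fin N → Fin N → E3 := fun i j => cm m σ (v 0) i - cm m σ (v 0) j with hVdef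
  have hne : ∀ i j, P σ i j → X i j ≠ 0 := fun i j h =>
    norm_pos_iff.mp (hδ.trans_le (hX i j h))
  have hL0 : ∀ i j, P σ i j → ∀ s : ℝ, 0 ≤ s → δ / 2 ≤ ‖X i j + s • V i j‖ := by
    intro i j h s hs
    have h1 := line0 (X i j) (V i j) (hG i j h).2 s hs
    have h2 := hX i j h
    have h3 : δ ≤ ‖X i j‖ := h2
    linarith
  have hL2 : ∀ i j, P σ i j → ∀ s : ℝ, 0 ≤ s → s * w ≤ ‖X i j + s • V i j‖ :=
    fun i j h => (line1 (X i j) (V i j) w hw (hne i j h) (Or.inr (hG i j h))).2.1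
  have hT : ∀ i j, ∃ Θ θ : ℝ → ℝ, P σ i j →
      (∀ s, HasDerivAt Θ (θ s) s) ∧ (∀ s, 0 ≤ s → 1 / ‖X i j + s • V i j‖ ^ 2 ≤ θ s) ∧
      ∀ s, Θ s - Θ 0 ≤ Real.pi / (w * ‖X i j‖) := by
    intro i j
    by_cases h : P σ i j
    · obtain ⟨Θ, θ, h1, h2, h3⟩ :=
        (line1 (X i j) (V i j) w hw (hne i j h) (Or.inr (hG i j h))).2.2
      exact ⟨Θ, θ, fun _ => ⟨h1, h2, h3⟩⟩
    · exact ⟨fun _ => 0, fun _ => 0, fun h' => absurd h' h⟩
  choose Θ θ hΘ using hT
  have hstep := fun (T : ℝ) (hT : 0 ≤ T) => stepS hPair m M hm hM hM0 σ hσ q v c τ E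
    hmot w δ hw hδ hC X V (fun _ _ => rfl) (fun _ _ => rfl) hX hL0 hL2 Θ θ
    (fun i j h => (hΘ i j h).1) (fun i j h => (hΘ i j h).2.1) (fun i j h => (hΘ i j h).2.2)
    (fun k => -pe m σ (q 0) (v 0) k) hκ (fun _ => rfl) T hT
  -- continuity
  have hτc : Continuous τ := continuous_iff_continuousAt.mpr fun t => (hmot.τd t).continuousAt
  have hqc : ∀ i, Continuous fun t => q t i := fun i =>
    continuous_iff_continuousAt.mpr fun t => (hmot.qd t i).continuousAt
  have hvc : ∀ i, Continuous fun t => v t i := fun i =>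
    continuous_iff_continuousAt.mpr fun t => (hmot.vd t i).continuousAt
  have hcm : ∀ i, Continuous fun t => cm m σ (q t) i := fun i =>
    continuous_iff_continuousAt.mpr fun t =>
      (cm_hasDerivAt m σ q (fun i => c t • v t i) t (hmot.qd t) i).continuousAt
  have hDc : ∀ i j, Continuous fun t => ‖X i j + τ t • V i j‖ := fun i j =>
    (continuous_const.add (hτc.smul continuous_const)).norm
  have hpc : ∀ k, σ k ≠ k → Continuous fun t => pe m σ (q t) (v t) k := by
    intro k hk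
    unfold pe
    refine ((((hvc k).sub (hvc (σ k))).norm.pow 2).div_const 2).sub
      (continuous_const.div ((hqc k).sub (hqc (σ k))).norm ?_)
    intro t
    exact norm_ne_zero_iff.2 (sub_ne_zero.2 (hmot.ne t _ _ (fun h => hk h.symm)))
  have hκ0 : ∀ k, σ k ≠ k → 0 < -pe m σ (q 0) (v 0) k := by
    intro k hk
    have := hκ k hk
    by_contra hcon
    push Not at hcon
    nlinarith
  let ι := {p : Fin N × Fin N // P σ p.1 p.2} ⊕ {k : Fin N // σ k ≠ k}
  let g : ι → ℝ → ℝ := fun α t => Sum.elim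
    (fun p : {p : Fin N × Fin N // P σ p.1 p.2} => ‖X p.1.1 p.1.2 + τ t • V p.1.1 p.1.2‖ / 2
      - ‖(cm m σ (q t) p.1.1 - cm m σ (q t) p.1.2) - X p.1.1 p.1.2
        - τ t • V p.1.1 p.1.2‖)
    (fun k : {k : Fin N // σ k ≠ k} =>
      -(-pe m σ (q 0) (v 0) k.1) / 2 - pe m σ (q t) (v t) k.1) α
  have hg := Pool.Agent.Y275.NW.boot ι g
    (by
      rintro (⟨⟨i, j⟩, hP⟩ | ⟨k, hk⟩)
      · exact ((hDc i j).div_const 2).sub
          ((((hcm i).sub (hcm j)).sub continuous_const).sub (hτc.smul continuous_const)).norm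
      · exact continuous_const.sub (hpc k hk))
    (by
      rintro (⟨⟨i, j⟩, hP⟩ | ⟨k, hk⟩)
      · have h1 := hX i j hP
        have h2 : cm m σ (q 0) i - cm m σ (q 0) j - X i j = 0 := by simp [X]
        simp only [g, Sum.elim_inl, hmot.τ0, zero_smul, add_zero, sub_zero, h2, norm_zero]
        have : ‖X i j‖ = ‖cm m σ (q 0) i - cm m σ (q 0) j‖ := rfl
        rw [← this] at h1
        linarith
      · have := hκ0 k hk
        simp only [g, Sum.elim_inr]
        linarith)
    (by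
      intro T hT0 hall
      obtain ⟨_, h2, h3⟩ := hstep T hT0
        (fun t h0 h1 i j hP => by
          have := hall t h0 h1 (Sum.inl ⟨(i, j), hP⟩)
          simp only [g, Sum.elim_inl] at this
          linarith)
        (fun t h0 h1 k hk => by
          have := hall t h0 h1 (Sum.inr ⟨k, hk⟩)
          simp only [g, Sum.elim_inr] at this
          linarith)
      rintro (⟨⟨i, j⟩, hP⟩ | ⟨k, hk⟩)
      · have := h2 i j hP
        simp only [g, Sum.elim_inl]
        linarith
      · have := h3 k hk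
        simp only [g, Sum.elim_inr]
        linarith)
  intro t ht i j hP
  exact (hstep t ht
    (fun s h0 h1 i j hP => by
      have := hg s h0 (Sum.inl ⟨(i, j), hP⟩)
      simp only [g, Sum.elim_inl] at this
      linarith)
    (fun s h0 h1 k hk => by
      have := hg s h0 (Sum.inr ⟨k, hk⟩)
      simp only [g, Sum.elim_inr] at this
      linarith)).1 t ht le_rfl i j hP

end Run7.h852.NW
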