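import Pool.Agent.N775.NW.Wand

set_option autoImplicit false

/-!
# Project NB (MP_70f7a7_an): several binaries. Definitions and statements of the parts.

`Mot m E q v c τ` (file `Pool/Agent/Y516/NW/Main.lean`): `q t` are the positions and `v t` the
velocities of the bodies along a reparametrized solution of the Newtonian `N`-body problem, `τ t` is
the Newtonian time, `τ' = c > 0`, `q' = c v`, `v' = c (acc m q)`.

The bodies are grouped in clusters of at most two bodies, given by an involution `σ` of the bodies: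
the clusters are the sets `{i, σ i}`.
-/

namespace Run7.h852.NW

open MeasureTheory Set Filter Topology
open Pool.Agent.Y516.NW (E3 Cfg Surf acc gr Mot NonW Free Z IsFl vel)

/-- the mean (centre of mass) of the cluster of the body `i` -/
noncomputable def cm {N : ℕ} (m : Fin N → ℝ) (σ : Fin N → Fin N) (u : Cfg N) (i : Fin N) : E3 :=
  (m i + m (σ i))⁻¹ • (m i • u i + m (σ i) • u (σ i))

/-- the bodies `i` and `j` belong to different clusters -/
def P {N : ℕ} (σ : Fin N → Fin N) (i j : Fin N) : Prop := i ≠ j ∧ σ i ≠ j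

/-- energy of the relative motion of the two bodies of a cluster, per unit of reduced mass -/
noncomputable def pe {N : ℕ} (m : Fin N → ℝ) (σ : Fin N → Fin N) (q v : Cfg N) (k : Fin N) : ℝ :=
  ‖v k - v (σ k)‖ ^ 2 / 2 - (m k + m (σ k)) / ‖q k - q (σ k)‖

open Classical in
/-- NB-PAIR: the energy of a pair changes little, by the tidal forces of the other clusters.
Proof. `r = q k - q (σ k)`, `u = v k - v (σ k)`, `Mp = m k + m (σ k)`. One has
`acc k - acc (σ k) = - (Mp / |r|^3) r + F`, where `F` is the sum over the `j` with `P σ k j` of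
`(m j / |q j - q k|^3) (q j - q k) - (m j / |q j - q (σ k)|^3) (q j - q (σ k))`, and
`|x/|x|^3 - y/|y|^3| ≤ 2 |x - y| / ρ^3` if `|x|, |y| ≥ ρ` (write `x/|x|^3 = (x/|x|^2) / |x|` and use
`|x/|x|^2 - y/|y|^2| = |x - y| / (|x| |y|)`). So `|F| ≤ |r| ∑ 128 m j / D j ^ 3`, and
`d/dt pe = c ⟪u, F⟫`. Since `pe ≤ - κ / 2`: `|u|^2 |r|^2 ≤ 2 Mp |r|` and `|r| ≤ 2 Mp / κ`, hence
`|u| |r| ≤ 2 Mp / √κ`. -/
def PairStm : Prop :=
  ∀ (N : ℕ) (m : Fin N → ℝ), (∀ i, 0 < m i) → ∀ σ : Fin N → Fin N, (∀ i, σ (σ i) = i) →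
    ∀ (q v : ℝ → Cfg N) (c τ : ℝ → ℝ) (E : ℝ), Mot m E q v c τ → ∀ k, σ k ≠ k →
    ∀ (D : Fin N → ℝ → ℝ) (T : ℝ), 0 ≤ T →
      (∀ t, 0 ≤ t → t ≤ T → ∀ j, P σ k j → 0 < D j t ∧ D j t / 4 ≤ ‖q t k - q t j‖ ∧
        D j t / 4 ≤ ‖q t (σ k) - q t j‖) →
    ∀ κ : ℝ, 0 < κ → (∀ t, 0 ≤ t → t ≤ T → pe m σ (q t) (v t) k ≤ -κ / 2) →
    ∀ B B' : ℝ → ℝ, (∀ t, HasDerivAt B (B' t) t) → B 0 = 0 →
      (∀ t, 0 ≤ t → t ≤ T →
        c t * ∑ j ∈ Finset.univ.filter (fun j => P σ k j), 128 * m j / D j t ^ 3 ≤ B' t) →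
      |pe m σ (q T) (v T) k - pe m σ (q 0) (v 0) k| ≤
        2 * (m k + m (σ k)) / Real.sqrt κ * B T

/-- NB-INV: the image of a nonwandering point by the flow is nonwandering.
Proof. The field `Z m ψ` is `C^1` on the open set `Free N` (`q`-differences are not zero there), so it
is Lipschitz on compact subsets of `Free N` (`LocallyLipschitzOn.exists_lipschitzOnWith_of_compact`).
(1) Uniqueness: two solution curves in `Free N` (on the whole line) with the same value at `0`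
coincide (Gronwall on `[0, T]` and `[-T, 0]`, on the union of the two compact images); so
`φ t (φ s y) = φ (t + s) y = φ s (φ t y)` for `y ∈ Surf m E`. (2) Continuity: for `x ∈ Surf m E`,
`s` real and `ε > 0` there is `δ > 0` such that `‖φ s y - φ s x‖ < ε` for all `y ∈ Surf m E` with
`‖y - x‖ < δ` (Gronwall `dist_le_of_trajectories_ODE_of_mem` on a compact neighbourhood of the orbit
segment, with `Pool.Agent.Y275.NW.boot` or a first exit time; for `s < 0` use the reversed flow).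
(3) If `V` is a neighbourhood of `φ s x`, take a neighbourhood `V'` of `x` with
`φ s (V' ∩ S) ⊆ V`; from `y ∈ V' ∩ S`, `φ t y ∈ V'` one gets `φ s y ∈ V ∩ S` and
`φ t (φ s y) = φ s (φ t y) ∈ V`. -/
def InvStm : Prop :=
  ∀ (N : ℕ) (m : Fin N → ℝ), (∀ i, 0 < m i) → ∀ (E : ℝ) (ψ : Cfg N × Cfg N → ℝ)
    (φ : ℝ → Cfg N × Cfg N → Cfg N × Cfg N), IsFl m E ψ φ → ContDiffOn ℝ 1 ψ (Free N) →
    ∀ x ∈ Surf m E, ∀ s : ℝ, NonW (Surf m E) φ x → NonW (Surf m E) φ (φ s x)

/-- At a given time: the clusters are far apart, fast and receding, and the pairs are bound tightly;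
`q` are the positions and `v` the velocities. -/
structure Rec {N : ℕ} (m : Fin N → ℝ) (σ : Fin N → Fin N) (w δ κ : ℝ) (q v : Cfg N) : Prop where
  far : ∀ i j, P σ i j → δ ≤ ‖cm m σ q i - cm m σ q j‖
  fast : ∀ i j, P σ i j → w ≤ ‖cm m σ v i - cm m σ v j‖
  recede : ∀ i j, P σ i j → 0 ≤ inner ℝ (cm m σ q i - cm m σ q j) (cm m σ v i - cm m σ v j)
  bound : ∀ k, σ k ≠ k → pe m σ q v k ≤ -κ

/-- Hyperbolic-elliptic final motion, as `t → ∞`: the distances between bodies of different clusters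
grow at least linearly with the Newtonian time `τ`, which tends to infinity, and the distances in the
pairs are bounded. -/
structure Lin {N : ℕ} (σ : Fin N → Fin N) (q : ℝ → Cfg N) (τ : ℝ → ℝ) : Prop where
  time : Tendsto τ atTop atTop
  sep : ∀ i j, P σ i j → ∃ a > 0, ∀ᶠ t in atTop, a * τ t ≤ ‖q t i - q t j‖
  bdd : ∀ k, ∃ R : ℝ, ∀ᶠ t in atTop, ‖q t k - q t (σ k)‖ ≤ R

/-- NB-VEL: for a hyperbolic-elliptic final motion the velocities of the clusters converge, the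
limits are different.
Proof. The acceleration of the centre of a cluster is a mean of terms
`(m j / |q j - q i|^3) (q j - q i)` with `P σ i j` (the forces inside of the cluster cancel), so it is
`O(1 / τ^2)` in Newtonian time, and `‖cm v (t) - cm v (s)‖ ≤ C (1 / τ s - 1 / τ t)` for large
`s ≤ t`: the velocities converge. If the limits for `i`, `j` were equal, `‖cm q i - cm q j‖` would be
`o(τ)`, against `Lin.sep` and `Lin.bdd` (`‖q i - cm q i‖ ≤ ‖q i - q (σ i)‖`). -/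
def VelStm : Prop :=
  ∀ (N : ℕ) (m : Fin N → ℝ), (∀ i, 0 < m i) → ∀ σ : Fin N → Fin N, (∀ i, σ (σ i) = i) →
    ∀ (q v : ℝ → Cfg N) (c τ : ℝ → ℝ) (E : ℝ), Mot m E q v c τ → Lin σ q τ →
    ∃ V : Cfg N, (∀ i j, P σ i j → V i ≠ V j) ∧
      ∀ i, Tendsto (fun t => cm m σ (v t) i) atTop (𝓝 (V i))

/-- NB-ELL: for a hyperbolic-elliptic final motion the energies of the pairs are negative, bounded
away from zero.
Proof. Let `r = q k - q (σ k)`, `u = v k - v (σ k)`, `Mp = m k + m (σ k)`, `h = pe`, `|r| ≤ R` for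
large `t`. In Newtonian time `r'' = - Mp r / |r|^3 + F`, `|F| ≤ C |r| / τ^3` (see `PairStm`), so
`(|r|^2)'' / 2 = 2 h + Mp / |r| + ⟪r, F⟫` and `h' = ⟪u, F⟫`. (i) There are arbitrarily large times
with `h < - Mp / (8 R)`: otherwise `(|r|^2)'' / 2 ≥ Mp / (2 R)` for all large times and `|r|` would
be unbounded. (ii) As long as `h ≤ 0`, `|u| |r| ≤ √(2 Mp R)`, so `|h'| ≤ C' / τ^3`, and
`h < - Mp / (8 R)` at a sufficiently large time implies `h < - Mp / (16 R)` for all later times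
(continuity argument). -/
def EllStm : Prop :=
  ∀ (N : ℕ) (m : Fin N → ℝ), (∀ i, 0 < m i) → ∀ σ : Fin N → Fin N, (∀ i, σ (σ i) = i) →
    ∀ (q v : ℝ → Cfg N) (c τ : ℝ → ℝ) (E : ℝ), Mot m E q v c τ → Lin σ q τ →
    ∀ k, σ k ≠ k → ∃ κ > 0, ∀ᶠ t in atTop, pe m σ (q t) (v t) k ≤ -κ

/-- NB-FIN: at late times of a hyperbolic-elliptic final motion the criterion `Rec` holds, with
`w^2 δ` and `κ δ` as large as desired.
Proof. `V i` the limit velocities, `w = (1/2) min |V i - V j|` over `P σ i j` (if there is no such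
pair take `w = 1`), `κ` the minimum of the `κ k`. `X = cm q i - cm q j` satisfies
`‖X t - X s - (τ t - τ s) (V i - V j)‖ ≤ η (τ t - τ s)` for `t ≥ s ≥ s(η)`, so `‖X t‖ → ∞` and
`⟪X t, cm v i - cm v j⟫ > 0` for large `t`. -/
def FinStm : Prop :=
  ∀ (N : ℕ) (m : Fin N → ℝ), (∀ i, 0 < m i) → ∀ σ : Fin N → Fin N, (∀ i, σ (σ i) = i) →
    ∀ (q v : ℝ → Cfg N) (c τ : ℝ → ℝ) (E : ℝ), Mot m E q v c τ → Tendsto τ atTop atTop →
    ∀ V : Cfg N, (∀ i j, P σ i j → V i ≠ V j) →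
      (∀ i, Tendsto (fun t => cm m σ (v t) i) atTop (𝓝 (V i))) →
      (∀ k, σ k ≠ k → ∃ κ > 0, ∀ᶠ t in atTop, pe m σ (q t) (v t) k ≤ -κ) →
    ∀ C : ℝ, ∃ w δ κ : ℝ, 0 < w ∧ 0 < δ ∧ 0 < κ ∧ C ≤ w ^ 2 * δ ∧ C ≤ κ * δ ∧
      ∃ t, 0 ≤ t ∧ Rec m σ w δ κ (q t) (v t)

end Run7.h852.NW
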