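import Pool.Agent.Run7.h852.NW.Step

set_option autoImplicit false

/-! Project NB (MP_70f7a7_an): points with tight pairs whose clusters are far apart, fast and
receding (or approaching) are wandering. Adapted from `Pool/Agent/N775/NW/Wand.lean`. -/

namespace Run7.h852.NW

open MeasureTheory Set Filter Topology
open Pool.Agent.Y516.NW (E3 Cfg Surf acc gr Mot NonW Free Z IsFl vel free_open Z_cont surf_free
  mot_of_flow)
open Pool.Agent.N775.NW (locC mot_rev vel_cont)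
open scoped Classical

variable {N : ℕ}

theorem cm_cont (m : Fin N → ℝ) (σ : Fin N → Fin N) (i : Fin N) :
    Continuous fun u : Cfg N => cm m σ u i := by
  unfold cm
  exact ((((continuous_apply i).const_smul (m i)).add
      ((continuous_apply (σ i)).const_smul (m (σ i)))).const_smul ((m i + m (σ i))⁻¹))

theorem growM (m : Fin N → ℝ) (σ : Fin N → Fin N) (i₀ j₀ : Fin N) {q v : ℝ → Cfg N}
    {c τ : ℝ → ℝ} {E : ℝ}
    (hmot : Mot m E q v c τ) (w : ℝ) (hw : 0 < w) (V0 : E3) (hV0 : w ≤ ‖V0‖)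
    (h : ∀ t, 0 ≤ t → ‖(cm m σ (v t) i₀ - cm m σ (v t) j₀) - V0‖ ≤ w / 8) (t : ℝ)
    (ht : 0 ≤ t) :
    w ^ 2 / 2 * τ t ≤ inner ℝ V0 (cm m σ (q t) i₀ - cm m σ (q t) j₀)
      - inner ℝ V0 (cm m σ (q 0) i₀ - cm m σ (q 0) j₀) := by
  have hder : ∀ s, HasDerivAt (fun s => inner ℝ V0 (cm m σ (q s) i₀ - cm m σ (q s) j₀)
      - w ^ 2 / 2 * τ s)
      (inner ℝ V0 (c s • (cm m σ (v s) i₀ - cm m σ (v s) j₀)) - w ^ 2 / 2 * c s) s := by
    intro s
    have e1 := cm_hasDerivAt m σ q (fun i => c s • v s i) s (hmot.qd s) i₀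
    have e2 := cm_hasDerivAt m σ q (fun i => c s • v s i) s (hmot.qd s) j₀
    rw [cm_smul] at e1 e2
    have e3 := (e1.sub e2)
    rw [← smul_sub] at e3
    have e4 : HasDerivAt (fun s => inner ℝ V0 (cm m σ (q s) i₀ - cm m σ (q s) j₀))
        (inner ℝ V0 (c s • (cm m σ (v s) i₀ - cm m σ (v s) j₀))) s :=
      ((innerSL ℝ V0).hasFDerivAt.comp_hasDerivAt s e3)
    exact e4.sub ((hmot.τd s).const_mul _)
  have hmono : MonotoneOn (fun s => inner ℝ V0 (cm m σ (q s) i₀ - cm m σ (q s) j₀)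
      - w ^ 2 / 2 * τ s) (Ici 0) := by
    refine monotoneOn_of_deriv_nonneg (convex_Ici 0)
      (fun s _ => (hder s).continuousAt.continuousWithinAt)
      (fun s _ => (hder s).differentiableAt.differentiableWithinAt) ?_
    intro s hs
    rw [interior_Ici] at hs
    rw [(hder s).deriv, inner_smul_right]
    have hc := hmot.cpos s
    have e3 := h s (le_of_lt hs)
    set A := cm m σ (v s) i₀ - cm m σ (v s) j₀
    have e4 : inner ℝ V0 A = ‖V0‖ ^ 2 + inner ℝ V0 (A - V0) := by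
      rw [inner_sub_right V0 A V0, real_inner_self_eq_norm_sq]; ring
    have e5 : -(‖V0‖ * (w / 8)) ≤ inner ℝ V0 (A - V0) := by
      have h1 := abs_real_inner_le_norm V0 (A - V0)
      have h2 : ‖V0‖ * ‖A - V0‖ ≤ ‖V0‖ * (w / 8) := by gcongr
      have h3 := neg_abs_le (inner ℝ V0 (A - V0))
      linarith
    have e6 : w ^ 2 / 2 ≤ inner ℝ V0 A := by
      rw [e4]
      nlinarith
    nlinarith
  have h1 := hmono (show (0:ℝ) ∈ Ici 0 from mem_Ici.mpr le_rfl)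
    (show t ∈ Ici (0:ℝ) from mem_Ici.mpr ht) ht
  simp only [hmot.τ0, mul_zero, sub_zero] at h1
  linarith

theorem nbhdS (hPair : PairStm) (m : Fin N → ℝ) (M : ℝ) (hm : ∀ i, 0 < m i)
    (hM : ∑ i, m i ≤ M) (hM0 : 0 < M) (σ : Fin N → Fin N) (hσ : ∀ i, σ (σ i) = i)
    (E : ℝ) (x : Cfg N × Cfg N) (hx : ∀ i j, i ≠ j → x.1 i ≠ x.1 j) (i₀ j₀ : Fin N)
    (hP₀ : P σ i₀ j₀) (w δ κ : ℝ) (hw : 0 < w) (hδ : 0 < δ) (hκ0 : 0 < κ)
    (hC : 32000 * M ≤ w ^ 2 * δ) (hκ : 400 * M ≤ κ * δ)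
    (hR : Rec m σ w δ κ x.1 x.2) :
    ∃ U : Set (Cfg N × Cfg N), IsOpen U ∧ x ∈ U ∧ ∀ (q v : ℝ → Cfg N) (c τ : ℝ → ℝ),
      Mot m E q v c τ → (q 0, v 0) ∈ U → ∀ t, 0 ≤ t →
      w ^ 2 / 2 * τ t ≤
        inner ℝ (cm m σ x.2 i₀ - cm m σ x.2 j₀) (cm m σ (q t) i₀ - cm m σ (q t) j₀)
        - inner ℝ (cm m σ x.2 i₀ - cm m σ x.2 j₀)
          (cm m σ (q 0) i₀ - cm m σ (q 0) j₀) := by
  obtain ⟨V0, hV0⟩ : ∃ V0 : E3, V0 = cm m σ x.2 i₀ - cm m σ x.2 j₀ := ⟨_, rfl⟩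
  have hV0w : w ≤ ‖V0‖ := by rw [hV0]; exact hR.fast i₀ j₀ hP₀
  let A : Fin N × Fin N → Set (Cfg N × Cfg N) := fun p => {y | P σ p.1 p.2 →
      δ / 2 < ‖cm m σ y.1 p.1 - cm m σ y.1 p.2‖ ∧
      (w / 2 < ‖cm m σ y.2 p.1 - cm m σ y.2 p.2‖ ∧
          -(‖cm m σ y.1 p.1 - cm m σ y.1 p.2‖ * ‖cm m σ y.2 p.1 - cm m σ y.2 p.2‖) <
            2 * inner ℝ (cm m σ y.1 p.1 - cm m σ y.1 p.2)
              (cm m σ y.2 p.1 - cm m σ y.2 p.2))}
  let B : Fin N → Set (Cfg N × Cfg N) := fun k =>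
    {y | (‖y.2 k - y.2 (σ k)‖ ^ 2 / 2 + κ / 2) * ‖y.1 k - y.1 (σ k)‖ < m k + m (σ k)}
  let U3 : Set (Cfg N × Cfg N) :=
    {y | ‖(cm m σ y.2 i₀ - cm m σ y.2 j₀) - V0‖ < w / 16}
  have c1 : ∀ i j, Continuous fun y : Cfg N × Cfg N => cm m σ y.1 i - cm m σ y.1 j :=
    fun i j => ((cm_cont m σ i).comp continuous_fst).sub ((cm_cont m σ j).comp continuous_fst)
  have c2 : ∀ i j, Continuous fun y : Cfg N × Cfg N => cm m σ y.2 i - cm m σ y.2 j :=
    fun i j => ((cm_cont m σ i).comp continuous_snd).sub ((cm_cont m σ j).comp continuous_snd)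
  have hA : ∀ p, IsOpen (A p) := by
    intro p
    by_cases hP : P σ p.1 p.2
    · have hPt : P σ p.1 p.2 = True := eq_true hP
      simp only [A]
      rw [hPt]
      simp only [true_imp_iff]
      refine (isOpen_lt continuous_const (c1 p.1 p.2).norm).inter ?_
      exact (isOpen_lt continuous_const (c2 p.1 p.2).norm).inter (isOpen_lt
          (((c1 p.1 p.2).norm.mul (c2 p.1 p.2).norm).neg)
          (continuous_const.mul ((c1 p.1 p.2).inner (c2 p.1 p.2))))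
    · have hPt : P σ p.1 p.2 = False := eq_false hP
      simp only [A]
      rw [hPt]
      simp only [false_imp_iff]
      exact isOpen_univ
  have hB : ∀ k, IsOpen (B k) := by
    intro k
    have d1 : Continuous fun y : Cfg N × Cfg N => y.1 k - y.1 (σ k) :=
      ((continuous_apply k).comp continuous_fst).sub ((continuous_apply (σ k)).comp continuous_fst)
    have d2 : Continuous fun y : Cfg N × Cfg N => y.2 k - y.2 (σ k) :=
      ((continuous_apply k).comp continuous_snd).sub ((continuous_apply (σ k)).comp continuous_snd)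
    exact isOpen_lt ((((d2.norm.pow 2).div_const 2).add continuous_const).mul d1.norm)
      continuous_const
  refine ⟨(⋂ p, A p) ∩ (⋂ k, B k) ∩ U3, ((isOpen_iInter_of_finite hA).inter
    (isOpen_iInter_of_finite hB)).inter (isOpen_lt
    (((c2 i₀ j₀).sub continuous_const).norm) continuous_const), ⟨⟨?_, ?_⟩, ?_⟩, ?_⟩
  · rw [mem_iInter]
    rintro ⟨i, j⟩ hP
    have h1 := hR.far i j hP
    have h2 := hR.fast i j hP
    have h3 := hR.recede i j hP
    have h4 : 0 < ‖cm m σ x.1 i - cm m σ x.1 j‖ := hδ.trans_le h1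
    have h5 : 0 < ‖cm m σ x.1 i - cm m σ x.1 j‖ * ‖cm m σ x.2 i - cm m σ x.2 j‖ :=
      mul_pos h4 (by linarith)
    refine ⟨by dsimp only; linarith, by dsimp only; linarith, by dsimp only; linarith⟩
  · rw [mem_iInter]
    intro k
    show (‖x.2 k - x.2 (σ k)‖ ^ 2 / 2 + κ / 2) * ‖x.1 k - x.1 (σ k)‖ < m k + m (σ k)
    by_cases hk : σ k = k
    · rw [hk, sub_self (x.1 k), norm_zero, mul_zero]
      have := hm k
      linarith
    · have hr : 0 < ‖x.1 k - x.1 (σ k)‖ :=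
        norm_pos_iff.2 (sub_ne_zero.2 (hx _ _ (fun h => hk h.symm)))
      have h1 := hR.bound k hk
      unfold pe at h1
      have h2 : ‖x.2 k - x.2 (σ k)‖ ^ 2 / 2 + κ ≤ (m k + m (σ k)) / ‖x.1 k - x.1 (σ k)‖ := by
        linarith
      rw [le_div_iff₀ hr] at h2
      nlinarith [mul_pos hκ0 hr]
  · show ‖(cm m σ x.2 i₀ - cm m σ x.2 j₀) - V0‖ < w / 16
    rw [← hV0, sub_self, norm_zero]; positivity
  · rintro q v c τ hmot ⟨⟨hy1, hy2⟩, hy3⟩ t ht
    rw [mem_iInter] at hy1 hy2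
    have hcur := curveS hPair m M hm hM hM0 σ hσ q v c τ E hmot
      (w / 4) (δ / 2) (by positivity) (by positivity)
      (by nlinarith)
      (fun i j hP => (hy1 (i, j) hP).1.le)
      (fun i j hP => by
        have h := (hy1 (i, j) hP).2
        refine ⟨?_, h.2.le⟩
        have := h.1
        dsimp only at this
        linarith)
      (fun k hk => by
        have h1 : (‖v 0 k - v 0 (σ k)‖ ^ 2 / 2 + κ / 2) * ‖q 0 k - q 0 (σ k)‖ < m k + m (σ k) :=
          hy2 k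
        have hr : 0 < ‖q 0 k - q 0 (σ k)‖ :=
          norm_pos_iff.2 (sub_ne_zero.2 (hmot.ne 0 _ _ (fun h => hk h.symm)))
        rw [← lt_div_iff₀ hr] at h1
        have h2 : κ / 2 < -pe m σ (q 0) (v 0) k := by
          unfold pe
          linarith
        nlinarith)
    rw [← hV0]
    refine growM m σ i₀ j₀ hmot w hw V0 hV0w ?_ t ht
    intro s hs
    have e1 := hcur s hs i₀ j₀ hP₀
    have e2 : ‖(cm m σ (v 0) i₀ - cm m σ (v 0) j₀) - V0‖ < w / 16 := hy3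
    set B := cm m σ (v s) i₀ - cm m σ (v s) j₀
    set B0 := cm m σ (v 0) i₀ - cm m σ (v 0) j₀
    have : B - V0 = (B - B0) + (B0 - V0) := by abel
    rw [this]
    refine (norm_add_le _ _).trans ?_
    linarith

/-- points at which the clusters are far apart, fast and receding (or approaching) and the pairs are
tightly bound are wandering -/
theorem wanderS (hPair : PairStm) (m : Fin N → ℝ) (M : ℝ) (hm : ∀ i, 0 < m i)
    (hM : ∑ i, m i ≤ M) (hM0 : 0 < M) (σ : Fin N → Fin N) (hσ : ∀ i, σ (σ i) = i)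
    (E : ℝ) (ψ : Cfg N × Cfg N → ℝ)
    (φ : ℝ → Cfg N × Cfg N → Cfg N × Cfg N) (hφ : IsFl m E ψ φ) (x : Cfg N × Cfg N)
    (hx : x ∈ Surf m E) (i₀ j₀ : Fin N) (hP₀ : P σ i₀ j₀)
    (w δ κ : ℝ) (hw : 0 < w) (hδ : 0 < δ) (hκ0 : 0 < κ) (hC : 32000 * M ≤ w ^ 2 * δ)
    (hκ : 400 * M ≤ κ * δ)
    (hG : Rec m σ w δ κ x.1 (vel m x) ∨ Rec m σ w δ κ x.1 (fun k => -vel m x k)) :
    ¬ NonW (Surf m E) φ x := by
  have cX : Continuous fun y : Cfg N × Cfg N => cm m σ y.1 i₀ - cm m σ y.1 j₀ :=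
    ((cm_cont m σ i₀).comp continuous_fst).sub ((cm_cont m σ j₀).comp continuous_fst)
  intro hNW
  rcases hG with hG | hG
  · obtain ⟨U, hUo, hxU, hU⟩ := nbhdS hPair m M hm hM hM0 σ hσ E (x.1, vel m x) hx.1 i₀ j₀ hP₀
      w δ κ hw hδ hκ0 hC hκ hG
    obtain ⟨V1, hV1o, hxV1, s1, hs1, η, hη, hloc⟩ := locC (Free N) (Z m ψ) ψ free_open
      (Z_cont m ψ hφ.cont) hφ.cont hφ.pos x (surf_free m E hx)
    have hF : Continuous fun y : Cfg N × Cfg N => (y.1, vel m y) :=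
      continuous_fst.prodMk (vel_cont m)
    let G : Cfg N × Cfg N → ℝ := fun y =>
      inner ℝ (cm m σ (vel m x) i₀ - cm m σ (vel m x) j₀)
        (cm m σ y.1 i₀ - cm m σ y.1 j₀)
    have hGc : Continuous G := continuous_const.inner cX
    have hκ : 0 < w ^ 2 / 2 * η := by positivity
    have hU4 : IsOpen {y | |G y - G x| < w ^ 2 / 2 * η / 2} :=
      isOpen_lt ((hGc.sub continuous_const).abs) continuous_const
    obtain ⟨t, ht, y, ⟨⟨⟨hy1, hy2⟩, hy3⟩, hyS⟩, ⟨⟨hz1, hz2⟩, hz3⟩⟩ := hNW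
      (((fun y : Cfg N × Cfg N => (y.1, vel m y)) ⁻¹' U ∩ V1) ∩
        {y | |G y - G x| < w ^ 2 / 2 * η / 2})
      (((hUo.preimage hF).inter hV1o).inter hU4)
      ⟨⟨hxU, hxV1⟩, by
        show |G x - G x| < w ^ 2 / 2 * η / 2
        rw [sub_self, abs_zero]; positivity⟩ s1
    obtain ⟨τ, hmot⟩ := mot_of_flow m hm E ψ φ hφ y hyS
    have hfl := hφ.flow y hyS
    have h1 := hloc (fun s => φ s y) (fun s => surf_free m E (hfl.2 s).1)
      (fun s => (hfl.2 s).2) (by show φ 0 y ∈ V1; rw [hfl.1]; exact hy2) τ hmot.τ0 hmot.τd t ht.le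
    have h2 := hU _ _ _ τ hmot (by
      show ((φ 0 y).1, vel m (φ 0 y)) ∈ U
      rw [hfl.1]; exact hy1) t (by linarith)
    have h3 : w ^ 2 / 2 * τ t ≤ G (φ t y) - G y := by
      have e : G y = G (φ 0 y) := by rw [hfl.1]
      rw [e]
      exact h2
    have h4 : |G y - G x| < w ^ 2 / 2 * η / 2 := hy3
    have h5 : |G (φ t y) - G x| < w ^ 2 / 2 * η / 2 := hz3
    have h6 : w ^ 2 / 2 * η ≤ w ^ 2 / 2 * τ t := by gcongr
    rw [abs_lt] at h4 h5
    linarith [h4.1, h4.2, h5.1, h5.2]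
  · obtain ⟨U, hUo, hxU, hU⟩ := nbhdS hPair m M hm hM hM0 σ hσ E (x.1, fun k => -vel m x k) hx.1
      i₀ j₀ hP₀ w δ κ hw hδ hκ0 hC hκ hG
    obtain ⟨V1, hV1o, hxV1, s1, hs1, η, hη, hloc⟩ := locC (Free N) (fun y => -Z m ψ y) ψ free_open
      (Z_cont m ψ hφ.cont).neg hφ.cont hφ.pos x (surf_free m E hx)
    have hF : Continuous fun y : Cfg N × Cfg N => ((y.1, fun k => -vel m y k) : Cfg N × Cfg N) :=
      continuous_fst.prodMk (vel_cont m).neg
    let G : Cfg N × Cfg N → ℝ := fun y =>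
      inner ℝ (cm m σ (fun k => -vel m x k) i₀ - cm m σ (fun k => -vel m x k) j₀)
        (cm m σ y.1 i₀ - cm m σ y.1 j₀)
    have hGc : Continuous G := continuous_const.inner cX
    have hκ : 0 < w ^ 2 / 2 * η := by positivity
    have hU4 : IsOpen {y | |G y - G x| < w ^ 2 / 2 * η / 2} :=
      isOpen_lt ((hGc.sub continuous_const).abs) continuous_const
    obtain ⟨t, ht, y, ⟨⟨⟨hy1, hy2⟩, hy3⟩, hyS⟩, ⟨⟨hz1, hz2⟩, hz3⟩⟩ := hNW
      (((fun y : Cfg N × Cfg N => ((y.1, fun k => -vel m y k) : Cfg N × Cfg N)) ⁻¹' U ∩ V1) ∩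
        {y | |G y - G x| < w ^ 2 / 2 * η / 2})
      (((hUo.preimage hF).inter hV1o).inter hU4)
      ⟨⟨hxU, hxV1⟩, by
        show |G x - G x| < w ^ 2 / 2 * η / 2
        rw [sub_self, abs_zero]; positivity⟩ s1
    obtain ⟨τ, hmot⟩ := mot_of_flow m hm E ψ φ hφ y hyS
    have hfl := hφ.flow y hyS
    have hrev := mot_rev hmot t
    have h1 := hloc (fun s => φ (t - s) y) (fun s => surf_free m E (hfl.2 _).1)
      (fun s => by
        have := ((hfl.2 (t - s)).2).comp_const_sub t s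
        exact this)
      (by show φ (t - 0) y ∈ V1; rw [sub_zero]; exact hz2) _ hrev.τ0 hrev.τd t ht.le
    have h2 := hU _ _ _ _ hrev (by
      show ((φ (t - 0) y).1, fun k => -vel m (φ (t - 0) y) k) ∈ U
      rw [sub_zero]; exact hz1) t (by linarith)
    have h3 : w ^ 2 / 2 * (τ t - τ (t - t)) ≤ G y - G (φ t y) := by
      have e : G y = G (φ (t - t) y) := by rw [sub_self, hfl.1]
      have e' : G (φ t y) = G (φ (t - 0) y) := by rw [sub_zero]
      rw [e, e']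
      exact h2
    have h4 : |G y - G x| < w ^ 2 / 2 * η / 2 := hy3
    have h5 : |G (φ t y) - G x| < w ^ 2 / 2 * η / 2 := hz3
    have h6 : w ^ 2 / 2 * η ≤ w ^ 2 / 2 * (τ t - τ (t - t)) := by gcongr
    rw [abs_lt] at h4 h5
    linarith [h4.1, h4.2, h5.1, h5.2]

end Run7.h852.NW
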